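import Mathlib

/-!
# A polynomial endomorphism whose stable image is not a retract

For `n ≥ 3` consider the endomorphism of `K[x, y, z, …]` fixing `x` and all variables after `z`,
with `y ↦ (1 + x) y` and `z ↦ z + (2 + x) y ^ 2`.  It fixes `w = x z - y ^ 2`, and no element of
the stable image has a term `x ^ i y`.  A retraction onto the stable image would express
`w = x b - a ^ 2` with `a, b` in the stable image, and comparing the coefficients of `y ^ 2`
gives a contradiction.
-/

open MvPolynomial

namespace Pool.Agent.Results.MP_0f9f23_al.StableImageNotRetract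

universe u

/-- The stable image of an endomorphism of `K[x_1, …, x_n]`: the intersection of the images of
the iterates `φ^k`, `k ≥ 1`. -/
noncomputable def stableImage {K : Type u} [Field K] {n : ℕ}
    (φ : MvPolynomial (Fin n) K →ₐ[K] MvPolynomial (Fin n) K) :
    Subalgebra K (MvPolynomial (Fin n) K) :=
  ⨅ (k : ℕ) (_ : 1 ≤ k), (φ ^ k).range

/-- A subalgebra `R` of `K[x_1, …, x_n]` is a retract: there is a `K`-algebra homomorphism
`π : K[x_1, …, x_n] → R` with `π r = r` for all `r ∈ R`. -/
def IsRetract {K : Type u} [Field K] {n : ℕ} (R : Subalgebra K (MvPolynomial (Fin n) K)) :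
    Prop :=
  ∃ π : MvPolynomial (Fin n) K →ₐ[K] R, ∀ r : R, π (r : MvPolynomial (Fin n) K) = r

section

variable (K : Type u) [Field K] (n : ℕ) (hn : 3 ≤ n)

/-- The index of `x`. -/
def i0 : Fin n := ⟨0, by omega⟩
/-- The index of `y`. -/
def i1 : Fin n := ⟨1, by omega⟩
/-- The index of `z`. -/
def i2 : Fin n := ⟨2, by omega⟩

/-- The endomorphism: `y ↦ (1 + x) y`, `z ↦ z + (2 + x) y ^ 2`, everything else is fixed. -/
noncomputable def phi : MvPolynomial (Fin n) K →ₐ[K] MvPolynomial (Fin n) K :=
  aeval fun i =>
    if i.val = 1 then (1 + X (i0 n hn)) * X (i1 n hn)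
    else if i.val = 2 then X (i2 n hn) + (2 + X (i0 n hn)) * X (i1 n hn) ^ 2
    else X i

/-- Substitution: `x` and `y` are kept, all other variables are sent to `0`. -/
noncomputable def tau : MvPolynomial (Fin n) K →ₐ[K] Polynomial (Polynomial K) :=
  aeval fun i =>
    if i.val = 0 then Polynomial.C Polynomial.X
    else if i.val = 1 then Polynomial.X
    else 0

theorem phi_x : phi K n hn (X (i0 n hn)) = X (i0 n hn) := by
  simp [phi, i0]

theorem phi_y : phi K n hn (X (i1 n hn)) = (1 + X (i0 n hn)) * X (i1 n hn) := by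
  simp [phi, i1]

theorem phi_z : phi K n hn (X (i2 n hn)) =
    X (i2 n hn) + (2 + X (i0 n hn)) * X (i1 n hn) ^ 2 := by
  simp [phi, i2]

theorem tau_x : tau K n (X (i0 n hn)) = Polynomial.C Polynomial.X := by
  simp [tau, i0]

theorem tau_y : tau K n (X (i1 n hn)) = Polynomial.X := by
  simp [tau, i1]

theorem tau_z : tau K n (X (i2 n hn)) = 0 := by
  simp [tau, i2]

/-- The invariant `w = x z - y ^ 2`. -/
noncomputable def w : MvPolynomial (Fin n) K :=
  X (i0 n hn) * X (i2 n hn) - X (i1 n hn) ^ 2

theorem phi_w : phi K n hn (w K n hn) = w K n hn := by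
  unfold w
  simp only [map_sub, map_mul, map_pow, phi_x, phi_y, phi_z]
  ring

theorem tau_phi (f : MvPolynomial (Fin n) K) :
    (tau K n (phi K n hn f)).coeff 0 = (tau K n f).coeff 0 ∧
    (tau K n (phi K n hn f)).coeff 1 =
      (Polynomial.X + Polynomial.C 1) * (tau K n f).coeff 1 := by
  induction f using MvPolynomial.induction_on with
  | C a =>
    rw [← MvPolynomial.algebraMap_eq, AlgHom.commutes, AlgHom.commutes]
    refine ⟨rfl, ?_⟩
    have : (algebraMap K (Polynomial (Polynomial K)) a).coeff 1 = 0 := by
      rw [Polynomial.algebraMap_apply, Polynomial.coeff_C]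
      simp
    rw [this, mul_zero]
  | add p q hp hq =>
    simp only [map_add, Polynomial.coeff_add, hp.1, hp.2, hq.1, hq.2]
    exact ⟨trivial, by ring⟩
  | mul_X p i hp =>
    have key : (tau K n (phi K n hn (X i))).coeff 0 = (tau K n (X i)).coeff 0 ∧
        (tau K n (phi K n hn (X i))).coeff 1 =
        (Polynomial.X + Polynomial.C 1) * (tau K n (X i)).coeff 1 := by
      rcases i with ⟨i, hi⟩
      rcases i with _ | _ | _ | i
      · have := phi_x K n hn
        unfold i0 at this
        rw [this]
        have := tau_x K n hn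
        unfold i0 at this
        rw [this]
        simp [Polynomial.coeff_C]
      · have := phi_y K n hn
        unfold i1 at this
        rw [this]
        have h2 := tau_y K n hn
        unfold i1 at h2
        rw [map_mul, map_add, map_one, h2, tau_x]
        simp [Polynomial.coeff_X, Polynomial.coeff_C, add_comm, Polynomial.coeff_one]
      · have := phi_z K n hn
        unfold i2 at this
        rw [this]
        have h2 := tau_z K n hn
        have h3 := tau_y K n hn
        unfold i2 at h2
        have h4 : (2 : Polynomial (Polynomial K)) = Polynomial.C 2 :=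
          (map_ofNat Polynomial.C 2).symm
        have h5 : tau K n (2 : MvPolynomial (Fin n) K) = Polynomial.C 2 := by
          rw [← h4]; exact map_ofNat _ 2
        rw [map_add, map_mul, map_add, map_pow, h2, h3, tau_x, h5, ← Polynomial.C_add, zero_add,
          Polynomial.coeff_C_mul, Polynomial.coeff_C_mul, Polynomial.coeff_X_pow,
          Polynomial.coeff_X_pow]
        simp
      · have : phi K n hn (X ⟨i + 1 + 1 + 1, hi⟩) = X ⟨i + 1 + 1 + 1, hi⟩ := by
          simp [phi]
        rw [this]
        have : tau K n (X ⟨i + 1 + 1 + 1, hi⟩) = 0 := by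
          simp [tau]
        rw [this]
        simp
    simp only [map_mul, Polynomial.mul_coeff_zero, Polynomial.mul_coeff_one, hp.1, hp.2,
      key.1, key.2]
    exact ⟨trivial, by ring⟩

theorem tau_phi_pow (k : ℕ) (f : MvPolynomial (Fin n) K) :
    (tau K n ((phi K n hn ^ k) f)).coeff 1 =
      (Polynomial.X + Polynomial.C 1) ^ k * (tau K n f).coeff 1 := by
  induction k with
  | zero => simp
  | succ k ih =>
    rw [pow_succ', AlgHom.mul_apply, (tau_phi K n hn _).2, ih]
    ring

theorem coeff_one_eq_zero {f : MvPolynomial (Fin n) K} (hf : f ∈ stableImage (phi K n hn)) :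
    (tau K n f).coeff 1 = 0 := by
  by_contra hne
  have hdvd : ∀ k : ℕ, 1 ≤ k → (Polynomial.X + Polynomial.C (1 : K)) ^ k ∣
      (tau K n f).coeff 1 := by
    intro k hk
    unfold stableImage at hf
    rw [Algebra.mem_iInf] at hf
    have h1 := hf k
    rw [Algebra.mem_iInf] at h1
    obtain ⟨g, hg⟩ := h1 hk
    refine ⟨(tau K n g).coeff 1, ?_⟩
    rw [← tau_phi_pow K n hn, ← hg]
    rfl
  have h1 := Polynomial.natDegree_le_of_dvd
    (hdvd (((tau K n f).coeff 1).natDegree + 1) (by omega)) hne
  rw [Polynomial.natDegree_pow, Polynomial.natDegree_X_add_C] at h1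
  omega

theorem mem_of_fixed {f : MvPolynomial (Fin n) K} (hf : phi K n hn f = f) :
    f ∈ stableImage (phi K n hn) := by
  unfold stableImage
  rw [Algebra.mem_iInf]
  intro k
  rw [Algebra.mem_iInf]
  intro _
  refine ⟨f, ?_⟩
  show (phi K n hn ^ k) f = f
  induction k with
  | zero => rfl
  | succ k ih =>
    rcases Nat.eq_zero_or_pos k with rfl | hk
    · rw [zero_add, pow_one, hf]
    · rw [pow_succ', AlgHom.mul_apply, ih hk, hf]

theorem not_retract : ¬ IsRetract (stableImage (phi K n hn)) := by
  rintro ⟨π, hπ⟩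
  have hx : ((π (X (i0 n hn)) : stableImage (phi K n hn)) : MvPolynomial (Fin n) K) =
      X (i0 n hn) := by
    rw [hπ ⟨X (i0 n hn), mem_of_fixed K n hn (phi_x K n hn)⟩]
  have hw : ((π (w K n hn) : stableImage (phi K n hn)) : MvPolynomial (Fin n) K) = w K n hn := by
    rw [hπ ⟨w K n hn, mem_of_fixed K n hn (phi_w K n hn)⟩]
  set a := ((π (X (i1 n hn)) : stableImage (phi K n hn)) : MvPolynomial (Fin n) K) with ha
  set b := ((π (X (i2 n hn)) : stableImage (phi K n hn)) : MvPolynomial (Fin n) K) with hb
  have ha1 : (tau K n a).coeff 1 = 0 := coeff_one_eq_zero K n hn (π (X (i1 n hn))).2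
  have h1 : w K n hn = X (i0 n hn) * b - a ^ 2 := by
    rw [← hw]
    conv_lhs => rw [w]
    rw [map_sub, map_mul, map_pow]
    push_cast
    rw [hx]
  have h2 := congrArg (tau K n) h1
  rw [w] at h2
  simp only [map_sub, map_mul, map_pow, tau_x, tau_y, tau_z, mul_zero, zero_sub] at h2
  have h3 := congrArg (fun p => (Polynomial.coeff p 0).eval 0) h2
  have h4 := congrArg (fun p => (Polynomial.coeff p 2).eval 0) h2
  simp only [Polynomial.coeff_neg, Polynomial.coeff_sub,
    pow_two, Polynomial.coeff_mul,
    Finset.Nat.antidiagonal_succ, Finset.Nat.antidiagonal_zero] at h3 h4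
  simp [ha1] at h3 h4
  simp [h3] at h4

end

/-- For every field `K` and every `n ≥ 3` there is an endomorphism of `K[x_1, …, x_n]` whose
stable image is not a retract of `K[x_1, …, x_n]`. -/
theorem result (K : Type u) [Field K] (n : ℕ) (hn : 3 ≤ n) :
    ∃ φ : MvPolynomial (Fin n) K →ₐ[K] MvPolynomial (Fin n) K,
      ¬ IsRetract (stableImage φ) :=
  ⟨phi K n hn, not_retract K n hn⟩

end Pool.Agent.Results.MP_0f9f23_al.StableImageNotRetract
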